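import Pool.Agent.helper72.UP.Spec

set_option autoImplicit false

namespace Pool.Agent.helper72.UP

open Finset

theorem FOE_mono (N r : ℕ) (d : ℕ) (h : 2 * (r + d) ≤ N) : N.choose r ≤ N.choose (r + d) := by
  induction d with
  | zero => exact le_rfl
  | succ d ih =>
    have h1 := ih (by omega)
    have h2 : N.choose (r + d) ≤ N.choose (r + d + 1) :=
      Nat.choose_le_succ_of_lt_half_left (by omega)
    exact h1.trans h2

theorem FOE_small (t s : ℕ) (hs : s + 1 ≤ t) : (2 * (t + 1)).choose s ≤ (2 * (t + 1)).choose (t + 3) := by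
  obtain ⟨d, hd⟩ : ∃ d, t - 1 = s + d := ⟨t - 1 - s, by omega⟩
  have h1 : (2 * (t + 1)).choose s ≤ (2 * (t + 1)).choose (t - 1) := by
    rw [hd]
    exact FOE_mono _ _ _ (by omega)
  have h2 : (2 * (t + 1)).choose (t - 1) = (2 * (t + 1)).choose (t + 3) :=
    Nat.choose_symm_of_eq_add (by omega)
  rw [← h2]
  exact h1

theorem FOE_out (t r : ℕ) (hr : r ≤ 2 * (t + 1)) (h1 : r ≠ t) (h2 : r ≠ t + 1) (h3 : r ≠ t + 2) :
    (2 * (t + 1)).choose r ≤ (2 * (t + 1)).choose (t + 3) := by
  by_cases hc : r + 1 ≤ t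
  · exact FOE_small t r hc
  · have e : (2 * (t + 1)).choose r = (2 * (t + 1)).choose (2 * (t + 1) - r) :=
      Nat.choose_symm_of_eq_add (by omega)
    rw [e]
    exact FOE_small t _ (by omega)

theorem FOE_main (t c0 c1 l : ℝ) (ht : 0 ≤ t) (hc : 0 ≤ c0) (h1 : c1 * (t + 2) = c0 * (t + 1)) (h2 : l * (t + 3) = c1 * t) :
    (2 * t + 4) * (c0 + 2 * c1 + l) ≤ (2 * t + 3) * (2 * c0 + 2 * c1) := by
  have key : ((2 * t + 3) * (2 * c0 + 2 * c1) - (2 * t + 4) * (c0 + 2 * c1 + l)) * ((t + 2) * (t + 3)) =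
      c0 * 2 * (2 * t + 3) * (t + 1) := by
    linear_combination (-2 * (t + 3) - (2 * t + 4) * t) * h1 + (-(2 * t + 4) * (t + 2)) * h2
  have hp : 0 < (t + 2) * (t + 3) := by positivity
  have hq : 0 ≤ c0 * 2 * (2 * t + 3) * (t + 1) := by positivity
  rw [← key] at hq
  have := nonneg_of_mul_nonneg_left hq hp
  linarith

theorem FOE : FOE_stmt := by
  intro h
  rcases Nat.eq_zero_or_pos h with rfl | hh
  · norm_num [Nat.choose]
  · obtain ⟨t, rfl⟩ : ∃ t, h = t + 1 := ⟨h - 1, by omega⟩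
    set l : ℝ := ((2 * (t + 1)).choose (t + 1 + 2) : ℝ) with hl
    have hsum : ∑ r ∈ range (2 * (t + 1) + 1), max (((2 * (t + 1)).choose r : ℝ) - l) 0 =
        ∑ r ∈ ({t, t + 1, t + 2} : Finset ℕ), max (((2 * (t + 1)).choose r : ℝ) - l) 0 := by
      symm
      apply Finset.sum_subset
      · intro r hr
        simp only [Finset.mem_insert, Finset.mem_singleton] at hr
        rw [Finset.mem_range]
        omega
      · intro r hr hn
        simp only [Finset.mem_insert, Finset.mem_singleton, not_or] at hn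
        rw [Finset.mem_range] at hr
        have := FOE_out t r (by omega) hn.1 hn.2.1 hn.2.2
        apply max_eq_right
        have h3 : ((2 * (t + 1)).choose r : ℝ) ≤ l := by
          rw [hl]
          exact_mod_cast this
        linarith
    have hsum2 : ∑ r ∈ ({t, t + 1, t + 2} : Finset ℕ), max (((2 * (t + 1)).choose r : ℝ) - l) 0 =
        max (((2 * (t + 1)).choose t : ℝ) - l) 0 + (max (((2 * (t + 1)).choose (t + 1) : ℝ) - l) 0 +
          max (((2 * (t + 1)).choose (t + 2) : ℝ) - l) 0) := by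
      rw [Finset.sum_insert (by simp), Finset.sum_insert (by simp), Finset.sum_singleton]
    have e1 : (2 * (t + 1)).choose t = (2 * (t + 1)).choose (t + 2) := Nat.choose_symm_of_eq_add (by omega)
    have r1 : (2 * (t + 1)).choose (t + 2) * (t + 2) = (2 * (t + 1)).choose (t + 1) * (t + 1) := by
      have := Nat.choose_succ_right_eq (2 * (t + 1)) (t + 1)
      have e : 2 * (t + 1) - (t + 1) = t + 1 := by omega
      rw [e] at this
      exact this
    have r2 : (2 * (t + 1)).choose (t + 3) * (t + 3) = (2 * (t + 1)).choose (t + 2) * t := by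
      have := Nat.choose_succ_right_eq (2 * (t + 1)) (t + 2)
      have e : 2 * (t + 1) - (t + 2) = t := by omega
      rw [e] at this
      exact this
    have r3 : (2 * (t + 1) + 2).choose (t + 1 + 1) = 2 * (2 * (t + 1)).choose (t + 1) + 2 * (2 * (t + 1)).choose (t + 2) := by
      rw [Nat.choose_succ_succ (2 * (t + 1) + 1) (t + 1), Nat.choose_succ_succ (2 * (t + 1)) t, Nat.choose_succ_succ (2 * (t + 1)) (t + 1), e1]
      ring
    have m1 : (2 * (t + 1)).choose (t + 2) ≤ (2 * (t + 1)).choose (t + 1) := by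
      have h4 : (2 * (t + 1)).choose t ≤ (2 * (t + 1)).choose (t + 1) := FOE_mono _ t 1 (by omega)
      omega
    have m2 : (2 * (t + 1)).choose (t + 3) ≤ (2 * (t + 1)).choose (t + 2) := by
      have h5 : (2 * (t + 1)).choose (t + 3) * (t + 3) ≤ (2 * (t + 1)).choose (t + 2) * (t + 3) := by
        rw [r2]
        exact Nat.mul_le_mul_left _ (by omega)
      exact Nat.le_of_mul_le_mul_right h5 (by omega)
    set c0 : ℝ := ((2 * (t + 1)).choose (t + 1) : ℝ) with hc0
    set c1 : ℝ := ((2 * (t + 1)).choose (t + 2) : ℝ) with hc1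
    have e1' : ((2 * (t + 1)).choose t : ℝ) = c1 := by rw [hc1, e1]
    have m1' : c1 ≤ c0 := by rw [hc0, hc1]; exact_mod_cast m1
    have m2' : l ≤ c1 := by rw [hl, hc1]; exact_mod_cast m2
    have r1' : c1 * ((t : ℝ) + 2) = c0 * ((t : ℝ) + 1) := by rw [hc0, hc1]; exact_mod_cast r1
    have r2' : l * ((t : ℝ) + 3) = c1 * (t : ℝ) := by rw [hl, hc1]; exact_mod_cast r2
    have r3' : ((2 * (t + 1) + 2).choose (t + 1 + 1) : ℝ) = 2 * c0 + 2 * c1 := by
      rw [hc0, hc1, r3]
      push_cast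
      ring
    have hc00 : 0 ≤ c0 := by rw [hc0]; positivity
    rw [hsum, hsum2, e1', r3', max_eq_left (by linarith : (0 : ℝ) ≤ c1 - l), max_eq_left (by linarith : (0 : ℝ) ≤ c0 - l)]
    have := FOE_main (t : ℝ) c0 c1 l (Nat.cast_nonneg _) hc00 r1' r2'
    push_cast
    linarith

end Pool.Agent.helper72.UP
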